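import Pool.Agent.Y707.PR.Sys
import Pool.Agent.Y707.PH.Phi

/-!
# Euler products over the closed points of a scheme of finite type over `ℤ`

`K ⊆ F` are number fields.  The equations `eqs` and the inequation `den ≠ 0`, with coefficients in
`𝓞_K`, define a scheme over `𝓞_F`, of which the closed points are considered.
-/

set_option autoImplicit false
set_option maxHeartbeats 400000

namespace Pool.Agent.Y707.PL

open NumberField IsDedekindDomain Filter Topology

section
variable {K : Type} [Field K] [NumberField K] {σ : Type}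

/-- The points with coordinates in the field `κ`. -/
def points (eqs : Set (MvPolynomial σ (𝓞 K))) (den : MvPolynomial σ (𝓞 K)) {κ : Type} [Field κ]
    (φ : 𝓞 K →+* κ) : Set (σ → κ) :=
  {t | (∀ g ∈ eqs, MvPolynomial.eval₂ φ t g = 0) ∧ MvPolynomial.eval₂ φ t den ≠ 0}

/-- The closed points of the scheme `{eqs = 0, den ≠ 0}` over `𝓞_F`, without the fibres above the finite
set `R` of primes of `F`. -/
def closedPoints (eqs : Set (MvPolynomial σ (𝓞 K))) (den : MvPolynomial σ (𝓞 K)) (F : Type) [Field F]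
    [NumberField F] [Algebra K F] (R : Finset (HeightOneSpectrum (𝓞 F))) :
    Set (MaximalSpectrum (MvPolynomial σ (𝓞 F))) :=
  {y | (∀ g ∈ eqs, MvPolynomial.map (algebraMap (𝓞 K) (𝓞 F)) g ∈ y.asIdeal) ∧
    MvPolynomial.map (algebraMap (𝓞 K) (𝓞 F)) den ∉ y.asIdeal ∧
    ∀ v ∈ R, y.asIdeal.comap MvPolynomial.C ≠ v.asIdeal}

variable {F : Type} [Field F] [NumberField F]

/-- The number of the elements of the residue field. -/
noncomputable def cardAt (y : MaximalSpectrum (MvPolynomial σ (𝓞 F))) : ℕ :=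
  Nat.card (MvPolynomial σ (𝓞 F) ⧸ y.asIdeal)

/-- The multisets `β y`, of at most `B` complex numbers of absolute value `N(y)^j`, are the eigenvalues
at the closed points `y` of the geometric Frobenius, on a sheaf with the traces `T` at the points over
finite fields: for every point `ψ` over a finite field `κ` above `y`, with `#κ = N(y)^e`, the sum of the
`z^e` for `z` in `β y` is `T`. -/
def IsFrobenius [Algebra K F] {Y : Set (MaximalSpectrum (MvPolynomial σ (𝓞 F)))}
    (T : ∀ (κ : Type) [Field κ], (𝓞 K →+* κ) → (σ → κ) → ℝ) (j B : ℕ) (β : Y → Multiset ℂ) : Prop :=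
  ∀ y : Y, (β y).card ≤ B ∧ (∀ z ∈ β y, ‖z‖ = (cardAt y.1 : ℝ) ^ j) ∧
    ∀ (κ : Type) [Field κ] [Finite κ] (ψ : MvPolynomial σ (𝓞 F) →+* κ) (e : ℕ),
      RingHom.ker ψ = y.1.asIdeal → Nat.card κ = cardAt y.1 ^ e →
      ((β y).map fun z => z ^ e).sum = (T κ ((ψ.comp MvPolynomial.C).comp
        (algebraMap (𝓞 K) (𝓞 F))) (fun i => ψ (MvPolynomial.X i)) : ℂ)

/-- The Euler product `∏_y ∏_{z ∈ β y} (1 - z N(y)^{-s})⁻¹` converges (unconditionally) for
`Re s > s₀`, and it has a pole of order `m` at `s₀`: it has a meromorphic continuation `L` to a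
neighbourhood of `s₀`, of order `-m` there; and `(s - s₀)^m L(s)` has a finite nonzero limit as `s`
tends to `s₀` from the right along the reals. -/
def HasPole {Y : Type} (N : Y → ℕ) (β : Y → Multiset ℂ) (s₀ m : ℕ) : Prop :=
  ∃ L : ℂ → ℂ, (∀ s : ℂ, (s₀ : ℝ) < s.re →
      HasProd (fun y => ((β y).map fun z => (1 - z * (N y : ℂ) ^ (-s))⁻¹).prod) (L s)) ∧
    MeromorphicAt L (s₀ : ℂ) ∧ meromorphicOrderAt L (s₀ : ℂ) = ((-(m : ℤ) : ℤ) : WithTop ℤ) ∧
    ∃ c : ℂ, c ≠ 0 ∧
      Tendsto (fun s : ℝ => ((s : ℂ) - s₀) ^ m * L (s : ℂ)) (𝓝[>] (s₀ : ℝ)) (𝓝 c)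

end

end Pool.Agent.Y707.PL
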