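import Pool.Agent.Y707.PL.Defs

/-! Poles of Euler products over closed points. -/

set_option autoImplicit false
set_option maxHeartbeats 400000

namespace Pool.Agent.Y707.PL

open NumberField IsDedekindDomain Filter Topology
open Pool.Agent.H126R3 (Qc Qc_pos)
open Pool.Agent.W385.CP
open Pool.Agent.Y707.PH (Few hasProd_LY exp_log card_eH)
open Pool.Agent.Y707.RX (SD cmb near_one)
open Pool.Agent.W353.FB (finite_below)
open Pool.Agent.H921R2.TatePole (kerPrime)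

section
variable {K : Type} [Field K] [NumberField K] {σ : Type} [Fintype σ]
  {eqs : Set (MvPolynomial σ (𝓞 K))} {den : MvPolynomial σ (𝓞 K)}
  {F : Type} [Field F] [NumberField F] [Algebra K F] {R : Finset (HeightOneSpectrum (𝓞 F))}
  {T : ∀ (κ : Type) [Field κ], (𝓞 K →+* κ) → (σ → κ) → ℝ} {j B m : ℕ} {C : ℝ}
  {β : closedPoints eqs den F R → Multiset ℂ}

/-- the restriction to `𝓞_K` -/
abbrev rs (K : Type) [Field K] [NumberField K] {F : Type} [Field F] [NumberField F] [Algebra K F]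
    {κ : Type} [Field κ] (φ : 𝓞 F →+* κ) : 𝓞 K →+* κ :=
  φ.comp (algebraMap (𝓞 K) (𝓞 F))

theorem comp_map {κ : Type} [Field κ] (ψ : MvPolynomial σ (𝓞 F) →+* κ) (g : MvPolynomial σ (𝓞 K)) :
    ψ (MvPolynomial.map (algebraMap (𝓞 K) (𝓞 F)) g) =
      MvPolynomial.eval₂ (rs K (ψ.comp MvPolynomial.C)) (fun i => ψ (MvPolynomial.X i)) g := by
  have h : ψ.comp (MvPolynomial.map (algebraMap (𝓞 K) (𝓞 F))) =
      MvPolynomial.eval₂Hom (rs K (ψ.comp MvPolynomial.C)) (fun i => ψ (MvPolynomial.X i)) := by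
    apply MvPolynomial.ringHom_ext
    · intro r
      simp
    · intro i
      simp
  exact RingHom.congr_fun h g

theorem mem_closed {κ : Type} [Field κ] [Finite κ] (ψ : MvPolynomial σ (𝓞 F) →+* κ) :
    ptH ψ ∈ closedPoints eqs den F R ↔ (fun i => ψ (MvPolynomial.X i)) ∈
      points eqs den (rs K (ψ.comp MvPolynomial.C)) ∧
      ∀ v ∈ R, RingHom.ker (ψ.comp MvPolynomial.C) ≠ v.asIdeal := by
  have h2 : (ptH ψ).asIdeal.comap MvPolynomial.C = RingHom.ker (ψ.comp MvPolynomial.C) := by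
    ext x
    rw [Ideal.mem_comap, mem_ptH, RingHom.mem_ker]
    rfl
  unfold closedPoints points
  rw [Set.mem_ofPred_eq, Set.mem_ofPred_eq, h2, mem_ptH, comp_map, and_assoc]
  refine and_congr (forall₂_congr fun g _ => ?_) Iff.rfl
  rw [mem_ptH, comp_map]

open Classical in
/-- the traces of the powers of the Frobenius at a closed point -/
noncomputable def trc (β : closedPoints eqs den F R → Multiset ℂ)
    (y : MaximalSpectrum (MvPolynomial σ (𝓞 F))) (n : ℕ) : ℂ :=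
  if h : y ∈ closedPoints eqs den F R then ((β ⟨y, h⟩).map fun z => z ^ n).sum else 0

theorem trc_norm (hβ : IsFrobenius T j B β) (y : MaximalSpectrum (MvPolynomial σ (𝓞 F))) (n : ℕ) :
    ‖trc β y (n + 1)‖ ≤ B * (((qn y : ℕ) : ℝ) ^ (n + 1)) ^ (j : ℝ) := by
  unfold trc
  split_ifs with h
  · obtain ⟨h2, h1, -⟩ := hβ ⟨y, h⟩
    have h3 : ∀ z ∈ β ⟨y, h⟩, ‖z ^ (n + 1)‖ = (((qn y : ℕ) : ℝ) ^ (n + 1)) ^ (j : ℝ) := by
      intro z hz
      rw [norm_pow, h1 z hz, Real.rpow_natCast, ← pow_mul, ← pow_mul, mul_comm]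
      rfl
    refine (norm_multiset_sum_le _).trans ?_
    rw [Multiset.map_map]
    have h4 : (Multiset.map (norm ∘ fun z => z ^ (n + 1)) (β ⟨y, h⟩)).sum ≤
        (Multiset.map (norm ∘ fun z => z ^ (n + 1)) (β ⟨y, h⟩)).card •
          (((qn y : ℕ) : ℝ) ^ (n + 1)) ^ (j : ℝ) := by
      refine Multiset.sum_le_card_nsmul _ _ fun x hx => ?_
      obtain ⟨z, hz, rfl⟩ := Multiset.mem_map.1 hx
      exact (h3 z hz).le
    refine h4.trans ?_
    rw [Multiset.card_map, nsmul_eq_mul]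
    exact mul_le_mul_of_nonneg_right (by exact_mod_cast h2) (by positivity)
  · rw [norm_zero]
    positivity

/-- few points -/
theorem few (hC : ∀ (κ : Type) [Field κ] [Finite κ] (φ : 𝓞 K →+* κ),
    (Nat.card (points eqs den φ) : ℝ) ≤ C * (Nat.card κ : ℝ) ^ m) :
    Few (closedPoints eqs den F R) m (Module.finrank ℤ (𝓞 F) * |C|) := by
  classical
  intro c
  have hfin := hom_int F (Fc c)
  have hf1 := hfin.1
  let _ := Fintype.ofFinite (𝓞 F →+* Fc c)
  let _ := Fintype.ofFinite (Fc c)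
  have hBfin := (homBd_poly F σ).fin (Fc c)
  let e : {ψ : MvPolynomial σ (𝓞 F) →+* Fc c // ptH ψ ∈ closedPoints eqs den F R} →
      Σ φ : 𝓞 F →+* Fc c, {t : σ → Fc c // t ∈ points eqs den (rs K φ)} :=
    fun ψ => ⟨ψ.1.comp MvPolynomial.C, fun i => ψ.1 (MvPolynomial.X i),
      ((mem_closed ψ.1).1 ψ.2).1⟩
  have he : Function.Injective e := by
    intro ψ ψ' h
    apply Subtype.ext
    apply (homE F σ (Fc c)).injective
    have h1 : ψ.1.comp MvPolynomial.C = ψ'.1.comp MvPolynomial.C := congrArg Sigma.fst h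
    refine Prod.ext h1 ?_
    change (fun i => ψ.1 (MvPolynomial.X i)) = (fun i => ψ'.1 (MvPolynomial.X i))
    have h2 : ∀ z z' : (Σ φ : 𝓞 F →+* Fc c, {t : σ → Fc c // t ∈ points eqs den (rs K φ)}),
        z = z' → z.2.1 = z'.2.1 := by
      rintro z z' rfl
      rfl
    exact h2 _ _ h
  have h1 := Nat.card_le_card_of_injective e he
  have h2 : (Nat.card (Σ φ : 𝓞 F →+* Fc c, {t : σ → Fc c // t ∈ points eqs den (rs K φ)}) : ℝ) ≤
      Module.finrank ℤ (𝓞 F) * |C| * (Qc c : ℝ) ^ m := by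
    rw [Nat.card_sigma]
    push_cast
    have h3 : ∀ φ ∈ (Finset.univ : Finset (𝓞 F →+* Fc c)),
        (Nat.card {t : σ → Fc c // t ∈ points eqs den (rs K φ)} : ℝ) ≤ |C| * (Qc c : ℝ) ^ m := by
      intro φ _
      have h4 := hC (Fc c) (rs K φ)
      rw [card_Fc] at h4
      exact h4.trans (mul_le_mul_of_nonneg_right (le_abs_self C) (by positivity))
    refine (Finset.sum_le_card_nsmul _ _ _ h3).trans ?_
    rw [nsmul_eq_mul, Finset.card_univ, ← Nat.card_eq_fintype_card, mul_assoc]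
    refine mul_le_mul_of_nonneg_right ?_ (by positivity)
    exact_mod_cast hfin.2
  have h3 : (Nat.card {ψ : MvPolynomial σ (𝓞 F) →+* Fc c // ptH ψ ∈ closedPoints eqs den F R} : ℝ) ≤
      (Nat.card (Σ φ : 𝓞 F →+* Fc c, {t : σ → Fc c // t ∈ points eqs den (rs K φ)}) : ℝ) := by
    exact_mod_cast h1
  exact h3.trans h2

/-- the traces at a homomorphism -/
theorem trc_ptH (hβ : IsFrobenius T j B β) {k : Type} [Field k] [Finite k] {c : Nat.Primes × ℕ}
    (hk : Nat.card k = Qc c) (ψ : MvPolynomial σ (𝓞 F) →+* k)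
    (h : ptH ψ ∈ closedPoints eqs den F R) :
    trc β (ptH ψ) (eH c (ptH ψ)) =
      (T k (rs K (ψ.comp MvPolynomial.C)) (fun i => ψ (MvPolynomial.X i)) : ℂ) := by
  unfold trc
  rw [dif_pos h]
  exact (hβ ⟨ptH ψ, h⟩).2.2 k ψ _ rfl (card_eH hk ψ)

/-- the fibre average -/
noncomputable def avT (eqs : Set (MvPolynomial σ (𝓞 K))) (den : MvPolynomial σ (𝓞 K))
    (T : ∀ (κ : Type) [Field κ], (𝓞 K →+* κ) → (σ → κ) → ℝ) (n : ℕ) {κ : Type} [Field κ]
    (φ : 𝓞 K →+* κ) : ℝ :=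
  ((Nat.card κ : ℝ) ^ n)⁻¹ * ∑ᶠ t ∈ points eqs den φ, T κ φ t

/-- the sum over the homomorphisms to a prime field -/
theorem sum_trc (hβ : IsFrobenius T j B β) (n : ℕ) {p : Nat.Primes}
    (hp : haveI : Fact (p : ℕ).Prime := ⟨p.2⟩
      ∀ ψ : 𝓞 F →+* ZMod (p : ℕ), ∀ v ∈ R, RingHom.ker ψ ≠ v.asIdeal) :
    haveI : Fact (p : ℕ).Prime := ⟨p.2⟩
    ∑ᶠ ψ : MvPolynomial σ (𝓞 F) →+* ZMod (p : ℕ), trc β (ptH ψ) (eH (p, 0) (ptH ψ)) =
      ((((p : ℕ) : ℝ) ^ n * ∑ᶠ φ : 𝓞 F →+* ZMod (p : ℕ), avT eqs den T n (rs K φ) : ℝ) : ℂ) := by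
  classical
  haveI : Fact (p : ℕ).Prime := ⟨p.2⟩
  have hk : Nat.card (ZMod (p : ℕ)) = Qc (p, 0) := by
    rw [Nat.card_zmod, Qc_zero]
  have hfin := (hom_int F (ZMod (p : ℕ))).1
  let _ := Fintype.ofFinite (𝓞 F →+* ZMod (p : ℕ))
  rw [← finsum_comp_equiv (homE F σ (ZMod (p : ℕ))).symm]
  rw [finsum_eq_sum_of_fintype, finsum_eq_sum_of_fintype, Fintype.sum_prod_type, Finset.mul_sum,
    Complex.ofReal_sum]
  refine Finset.sum_congr rfl fun φ _ => ?_
  have hC : ∀ t : σ → ZMod (p : ℕ),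
      ((homE F σ (ZMod (p : ℕ))).symm (φ, t)).comp MvPolynomial.C = φ := by
    intro t
    exact congrArg Prod.fst ((homE F σ (ZMod (p : ℕ))).apply_symm_apply (φ, t))
  have hX : ∀ t : σ → ZMod (p : ℕ),
      (fun i => ((homE F σ (ZMod (p : ℕ))).symm (φ, t)) (MvPolynomial.X i)) = t := by
    intro t
    exact congrArg Prod.snd ((homE F σ (ZMod (p : ℕ))).apply_symm_apply (φ, t))
  have hmem : ∀ t : σ → ZMod (p : ℕ),
      ptH ((homE F σ (ZMod (p : ℕ))).symm (φ, t)) ∈ closedPoints eqs den F R ↔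
      t ∈ points eqs den (rs K φ) := by
    intro t
    rw [mem_closed, hC, hX]
    exact ⟨fun h => h.1, fun h => ⟨h, hp φ⟩⟩
  have htr : ∀ t : σ → ZMod (p : ℕ), trc β (ptH ((homE F σ (ZMod (p : ℕ))).symm (φ, t)))
      (eH (p, 0) (ptH ((homE F σ (ZMod (p : ℕ))).symm (φ, t)))) =
      if t ∈ points eqs den (rs K φ) then ((T (ZMod (p : ℕ)) (rs K φ) t : ℝ) : ℂ) else 0 := by
    intro t
    by_cases h : t ∈ points eqs den (rs K φ)
    · rw [if_pos h, trc_ptH hβ hk _ ((hmem t).2 h), hC, hX]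
    · rw [if_neg h]
      unfold trc
      rw [dif_neg fun h' => h ((hmem t).1 h')]
  rw [Finset.sum_congr rfl fun t _ => htr t]
  have hq : ((p : ℕ) : ℝ) ^ n ≠ 0 := pow_ne_zero _ (by exact_mod_cast p.2.ne_zero)
  unfold avT
  rw [Nat.card_zmod, ← mul_assoc, mul_inv_cancel₀ hq, one_mul]
  have h1 : (∑ᶠ t ∈ points eqs den (rs K φ), T (ZMod (p : ℕ)) (rs K φ) t) =
      ∑ t : σ → ZMod (p : ℕ), if t ∈ points eqs den (rs K φ) then
        T (ZMod (p : ℕ)) (rs K φ) t else 0 := by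
    rw [← finsum_eq_sum_of_fintype]
    refine finsum_congr fun t => ?_
    by_cases h : t ∈ points eqs den (rs K φ)
    · rw [if_pos h]
      simp [h]
    · rw [if_neg h]
      simp [h]
  rw [h1, Complex.ofReal_sum]
  refine Finset.sum_congr rfl fun t _ => ?_
  split_ifs
  · rfl
  · rw [Complex.ofReal_zero]

/-- the coefficients are small -/
theorem norm_Ac (hβ : IsFrobenius T j B β)
    (hC : ∀ (κ : Type) [Field κ] [Finite κ] (φ : 𝓞 K →+* κ),
      (Nat.card (points eqs den φ) : ℝ) ≤ C * (Nat.card κ : ℝ) ^ m) (c : Nat.Primes × ℕ) :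
    ‖Ac (trc β) c‖ ≤ (Module.finrank ℤ (𝓞 F) * |C| * B) * (Qc c : ℝ) ^ (m + j) := by
  classical
  have hB := homBd_poly F σ
  rw [Ac_eq (Fintype.card σ) (Module.finrank ℤ (𝓞 F)) (trc β) c (card_Fc c), norm_div,
    Complex.norm_natCast]
  have h2 : (1 : ℝ) ≤ ((c.2 + 1 : ℕ) : ℝ) := by exact_mod_cast Nat.succ_pos _
  refine (div_le_self (norm_nonneg _) h2).trans ?_
  have hBfin := hB.fin (Fc c)
  let _ := Fintype.ofFinite (MvPolynomial σ (𝓞 F) →+* Fc c)
  rw [finsum_eq_sum_of_fintype]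
  refine (norm_sum_le _ _).trans ?_
  have h3 : ∀ ψ ∈ (Finset.univ : Finset (MvPolynomial σ (𝓞 F) →+* Fc c)),
      ‖trc β (ptH ψ) (eH c (ptH ψ))‖ ≠ 0 → ptH ψ ∈ closedPoints eqs den F R := by
    intro ψ _ h
    by_contra hcon
    apply h
    unfold trc
    rw [dif_neg hcon, norm_zero]
  rw [← Finset.sum_filter_of_ne h3]
  have h4 : ∀ ψ ∈ (Finset.univ : Finset (MvPolynomial σ (𝓞 F) →+* Fc c)).filter
      (fun ψ => ptH ψ ∈ closedPoints eqs den F R),
      ‖trc β (ptH ψ) (eH c (ptH ψ))‖ ≤ B * (Qc c : ℝ) ^ j := by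
    intro ψ _
    have hc := card_eH (card_Fc c) ψ
    rw [card_Fc] at hc
    have h5 : eH c (ptH ψ) ≠ 0 := by
      intro h0
      rw [h0, pow_zero] at hc
      have := two_le_Qc c
      omega
    obtain ⟨n, hn⟩ := Nat.exists_eq_succ_of_ne_zero h5
    have h6 := trc_norm hβ (ptH ψ) n
    rw [hn]
    refine h6.trans (le_of_eq ?_)
    rw [Real.rpow_natCast, hc, hn]
    push_cast
    rfl
  refine (Finset.sum_le_card_nsmul _ _ _ h4).trans ?_
  rw [nsmul_eq_mul]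
  have h5 : (((Finset.univ : Finset (MvPolynomial σ (𝓞 F) →+* Fc c)).filter
      (fun ψ => ptH ψ ∈ closedPoints eqs den F R)).card : ℝ) ≤
      Module.finrank ℤ (𝓞 F) * |C| * (Qc c : ℝ) ^ m := by
    have h6 := few (F := F) (R := R) hC c
    rw [← Fintype.card_subtype, ← Nat.card_eq_fintype_card]
    exact h6
  refine (mul_le_mul_of_nonneg_right h5 (by positivity)).trans (le_of_eq ?_)
  rw [pow_add]
  ring

end

end Pool.Agent.Y707.PL
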