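import Pool.Agent.Y707.PL.Gen

/-! **Poles of Euler products over closed points.** -/

set_option autoImplicit false
set_option maxHeartbeats 400000

namespace Pool.Agent.Y707.PL

open NumberField IsDedekindDomain Filter Topology
open Pool.Agent.H126R3 (Qc Qc_pos)
open Pool.Agent.W385.CP
open Pool.Agent.Y707.PH (Few hasProd_LY exp_log card_eH)
open Pool.Agent.Y707.RX (SD cmb near_one)
open Pool.Agent.W353.FB (finite_below)
open Pool.Agent.H921R2.TatePole (kerPrime)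

section
variable {K : Type} [Field K] [NumberField K] {σ : Type} [Fintype σ]
  {eqs : Set (MvPolynomial σ (𝓞 K))} {den : MvPolynomial σ (𝓞 K)}
  {F : Type} [Field F] [NumberField F] [Algebra K F] {R : Finset (HeightOneSpectrum (𝓞 F))}
  {T : ∀ (κ : Type) [Field κ], (𝓞 K →+* κ) → (σ → κ) → ℝ} {j B m : ℕ} {C : ℝ}
  {β : closedPoints eqs den F R → Multiset ℂ}

/-- the Euler product -/
theorem hasProd_closed (hβ : IsFrobenius T j B β)
    (hC : ∀ (κ : Type) [Field κ] [Finite κ] (φ : 𝓞 K →+* κ),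
      (Nat.card (points eqs den φ) : ℝ) ≤ C * (Nat.card κ : ℝ) ^ m) (s : ℂ)
    (hs : ((m + 1 + j : ℕ) : ℝ) < s.re) :
    HasProd (fun y : closedPoints eqs den F R => ((β y).map fun z =>
      (1 - z * ((cardAt y.1 : ℕ) : ℂ) ^ (-s))⁻¹).prod)
      (Complex.exp (∑' c, Ac (trc β) c * ((Qc c : ℕ) : ℂ) ^ (-s))) := by
  push_cast at hs
  have h1 := hasProd_LY (B := MvPolynomial σ (𝓞 F)) (Fintype.card σ) (Module.finrank ℤ (𝓞 F))
    (Y := closedPoints eqs den F R) (n := m) (C1 := Module.finrank ℤ (𝓞 F) * |C|) (tr := trc β)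
    (w := (j : ℝ)) (Ct := (B : ℝ)) (Nat.cast_nonneg B) (trc_norm hβ) (fun y hy n => by
      unfold trc
      rw [dif_neg hy]) (few hC) s (by linarith)
  refine Eq.mp (congrArg (fun g => HasProd g _) (funext fun y => ?_)) h1
  have hq1 : (1 : ℝ) < ((qn y.1 : ℕ) : ℝ) := by
    have := two_le_qn y.1
    exact_mod_cast (by omega : 1 < qn y.1)
  have h2 : ∀ z ∈ β y, ‖z * ((qn y.1 : ℕ) : ℂ) ^ (-s)‖ < 1 := by
    intro z hz
    rw [norm_mul, Complex.norm_natCast_cpow_of_pos (by have := two_le_qn y.1; omega),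
      (hβ y).2.1 z hz]
    change ((qn y.1 : ℕ) : ℝ) ^ j * _ < 1
    rw [← Real.rpow_natCast, ← Real.rpow_add (by linarith), Complex.neg_re]
    refine Real.rpow_lt_one_of_one_lt_of_neg hq1 ?_
    have : (0 : ℝ) ≤ m := Nat.cast_nonneg _
    linarith
  have h3 := exp_log _ _ h2
  change Complex.exp _ = (Multiset.map (fun z => (1 - z * ((qn y.1 : ℕ) : ℂ) ^ (-s))⁻¹)
    (β y)).prod
  rw [← h3]
  congr 1
  refine tsum_congr fun n => ?_
  unfold trc
  rw [dif_pos y.2, ← Complex.cpow_nat_mul]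
  congr 3
  push_cast
  ring

/-- the normalised coefficients -/
noncomputable def An (β : closedPoints eqs den F R → Multiset ℂ) (n : ℕ) (c : Nat.Primes × ℕ) : ℂ :=
  Ac (trc β) c * (((Qc c : ℕ) : ℂ) ^ n)⁻¹

theorem norm_An (hβ : IsFrobenius T j B β)
    (hC : ∀ (κ : Type) [Field κ] [Finite κ] (φ : 𝓞 K →+* κ),
      (Nat.card (points eqs den φ) : ℝ) ≤ C * (Nat.card κ : ℝ) ^ m) (c : Nat.Primes × ℕ) :
    ‖An β (m + j) c‖ ≤ Module.finrank ℤ (𝓞 F) * |C| * B := by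
  unfold An
  have hq : (0 : ℝ) < (Qc c : ℝ) ^ (m + j) := by
    have : (0 : ℝ) < Qc c := Qc_pos' c
    positivity
  rw [norm_mul, norm_inv, norm_pow, Complex.norm_natCast, ← div_eq_mul_inv, div_le_iff₀ hq]
  exact norm_Ac hβ hC c

theorem sum_An (β : closedPoints eqs den F R → Multiset ℂ) (n : ℕ) (s : ℂ) :
    ∑' c, Ac (trc β) c * ((Qc c : ℕ) : ℂ) ^ (-s) = SD (An β n) (s - n) := by
  unfold SD An
  refine tsum_congr fun c => ?_
  have hq := Qc_ne c
  have e : ((Qc c : ℕ) : ℂ) ^ (-(s - n)) = ((Qc c : ℕ) : ℂ) ^ (-s) * ((Qc c : ℕ) : ℂ) ^ n := by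
    rw [← Complex.cpow_natCast, ← Complex.cpow_add _ _ hq]
    congr 1
    ring
  rw [e]
  field_simp

theorem An_prime (hβ : IsFrobenius T j B β) (n : ℕ) {p : Nat.Primes}
    (hp : haveI : Fact (p : ℕ).Prime := ⟨p.2⟩
      ∀ ψ : 𝓞 F →+* ZMod (p : ℕ), ∀ v ∈ R, RingHom.ker ψ ≠ v.asIdeal) :
    haveI : Fact (p : ℕ).Prime := ⟨p.2⟩
    An β n (p, 0) = ((∑ᶠ φ : 𝓞 F →+* ZMod (p : ℕ), avT eqs den T n (rs K φ) : ℝ) : ℂ) := by
  haveI : Fact (p : ℕ).Prime := ⟨p.2⟩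
  have hk : Nat.card (ZMod (p : ℕ)) = Qc (p, 0) := by
    rw [Nat.card_zmod, Qc_zero]
  unfold An
  rw [Ac_eq (Fintype.card σ) (Module.finrank ℤ (𝓞 F)) (trc β) (p, 0) hk, sum_trc hβ n hp]
  have hq : ((p : ℕ) : ℂ) ≠ 0 := by exact_mod_cast p.2.ne_zero
  rw [Qc_zero]
  push_cast
  field_simp

/-- **The pole.** -/
theorem pole_of (hβ : IsFrobenius T j B β)
    (hC : ∀ (κ : Type) [Field κ] [Finite κ] (φ : 𝓞 K →+* κ),
      (Nat.card (points eqs den φ) : ℝ) ≤ C * (Nat.card κ : ℝ) ^ m)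
    {ι : Type} [Fintype ι] {L : ι → Type} [∀ i, Field (L i)] [∀ i, NumberField (L i)]
    {a : ι → ℝ} {D : ℝ} {r : ℕ} (ha : ∑ i, a i = ((-(r : ℤ) : ℤ) : ℝ))
    (h : ∀ᶠ p : Nat.Primes in cofinite, haveI : Fact (p : ℕ).Prime := ⟨p.2⟩
      ‖((∑ᶠ φ : 𝓞 F →+* ZMod (p : ℕ), avT eqs den T (m + j) (rs K φ) : ℝ) : ℂ) + cmb L a p‖ ≤
        D * ((p : ℕ) : ℝ) ^ (-(1 / 2) : ℝ)) :
    HasPole (fun y : closedPoints eqs den F R => cardAt y.1) β (m + 1 + j) r := by
  classical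
  have h0 : ∀ᶠ p : Nat.Primes in cofinite, ‖An β (m + j) (p, 0) + cmb L a p‖ ≤
      D * ((p : ℕ) : ℝ) ^ (-(1 / 2) : ℝ) := by
    filter_upwards [h, finite_below (F := F) R.finite_toSet] with p hp hR
    haveI : Fact (p : ℕ).Prime := ⟨p.2⟩
    rw [An_prime hβ (m + j)]
    · exact hp
    · intro ψ v hv hker
      apply hR ψ
      have h1 : (kerPrime p ψ).1.1 = v := HeightOneSpectrum.ext hker
      rw [h1]
      exact hv
  obtain ⟨G, hG, hw⟩ := near_one (norm_An hβ hC) h0 ha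
  set s₀ : ℂ := ((m + 1 + j : ℕ) : ℂ) with hs₀
  have hre : s₀.re = ((m + 1 + j : ℕ) : ℝ) := by rw [hs₀, Complex.natCast_re]
  have hsub : s₀ - ((m + j : ℕ) : ℂ) = 1 := by
    rw [hs₀]
    push_cast
    ring
  set L₁ : ℂ → ℂ := fun s => (s - s₀) ^ (-(r : ℤ)) * Complex.exp (G (s - ((m + j : ℕ) : ℂ))) with hL₁
  set Λ : ℂ → ℂ := fun s => if s₀.re < s.re then
    Complex.exp (∑' c, Ac (trc β) c * ((Qc c : ℕ) : ℂ) ^ (-s)) else L₁ s with hΛ
  have hcont : Tendsto (fun s : ℂ => s - ((m + j : ℕ) : ℂ)) (𝓝 s₀) (𝓝 1) := by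
    have h2 : Continuous fun s : ℂ => s - ((m + j : ℕ) : ℂ) := by fun_prop
    have h3 := h2.tendsto s₀
    rwa [hsub] at h3
  have heq : Λ =ᶠ[𝓝 s₀] L₁ := by
    filter_upwards [hcont.eventually hw] with s hs
    rw [hΛ]
    simp only
    split_ifs with hlt
    · rw [sum_An β (m + j), hs]
      · rw [hL₁]
        simp only
        congr 2
        rw [hs₀]
        push_cast
        ring
      · rw [hre] at hlt
        rw [Complex.sub_re, Complex.natCast_re]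
        push_cast at hlt ⊢
        linarith
    · rfl
  have hGa : AnalyticAt ℂ (fun s : ℂ => Complex.exp (G (s - ((m + j : ℕ) : ℂ)))) s₀ := by
    have h4 : AnalyticAt ℂ (fun s : ℂ => s - ((m + j : ℕ) : ℂ)) s₀ := by fun_prop
    have h5 : AnalyticAt ℂ G ((fun s : ℂ => s - ((m + j : ℕ) : ℂ)) s₀) := by
      simp only
      rw [hsub]
      exact hG
    exact (AnalyticAt.comp (g := G) (f := fun s : ℂ => s - ((m + j : ℕ) : ℂ)) h5 h4).cexp
  have hmer : MeromorphicAt L₁ s₀ := by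
    refine MeromorphicAt.mul ?_ hGa.meromorphicAt
    exact (analyticAt_id.sub analyticAt_const).meromorphicAt.zpow _
  refine ⟨Λ, fun s hs => ?_, hmer.congr (heq.symm.filter_mono nhdsWithin_le_nhds), ?_, ?_⟩
  · have h2 : Λ s = Complex.exp (∑' c, Ac (trc β) c * ((Qc c : ℕ) : ℂ) ^ (-s)) := by
      rw [hΛ]
      simp only
      rw [if_pos (by rw [hre]; exact hs)]
    rw [h2]
    exact hasProd_closed hβ hC s hs
  · rw [meromorphicOrderAt_congr (heq.filter_mono nhdsWithin_le_nhds),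
      meromorphicOrderAt_eq_int_iff hmer]
    refine ⟨_, hGa, Complex.exp_ne_zero _, ?_⟩
    exact Eventually.of_forall fun s => rfl
  · refine ⟨Complex.exp (G 1), Complex.exp_ne_zero _, ?_⟩
    have h2 : Tendsto (fun s : ℝ => (s : ℂ)) (𝓝[>] ((m + 1 + j : ℕ) : ℝ)) (𝓝 s₀) := by
      have h3 := (Complex.continuous_ofReal.tendsto ((m + 1 + j : ℕ) : ℝ))
      have h4 : (((m + 1 + j : ℕ) : ℝ) : ℂ) = s₀ := by
        rw [hs₀]
        push_cast
        rfl
      rw [h4] at h3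
      exact h3.mono_left nhdsWithin_le_nhds
    have h3 : Tendsto (fun s : ℝ => Complex.exp (G ((s : ℂ) - ((m + j : ℕ) : ℂ))))
        (𝓝[>] ((m + 1 + j : ℕ) : ℝ)) (𝓝 (Complex.exp (G 1))) := by
      have h4 := hGa.continuousAt.tendsto.comp h2
      simp only [hsub] at h4
      exact h4
    refine h3.congr' ?_
    filter_upwards [h2.eventually heq, self_mem_nhdsWithin] with s hs hs1
    rw [hs, hL₁]
    simp only
    have h5 : (s : ℂ) - s₀ ≠ 0 := by
      intro h6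
      have h7 : ((s : ℂ) - s₀).re = 0 := by rw [h6, Complex.zero_re]
      rw [Complex.sub_re, Complex.ofReal_re, hre] at h7
      have : ((m + 1 + j : ℕ) : ℝ) < s := hs1
      linarith
    rw [zpow_neg, zpow_natCast, ← mul_assoc, mul_inv_cancel₀ (pow_ne_zero _ h5), one_mul]

end

end Pool.Agent.Y707.PL
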