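import Pool.Agent.Y707.PL.Defs
import Pool.Agent.Y707.SF.Fin

/-!
# The even cohomology of pencils of surfaces over a model of the base

The base is the open subscheme `D ≠ 0`, `G_i ≠ 0`, `2 ≠ 0` of the scheme of the points `(x, y, w)` with
`y_i ^ 2 = G_i(x)`, for a discriminant `D` in `𝓞_K[x][w]` of the generic member of the pencil.  It is
étale over an open subscheme of the affine space with coordinates `x`, `w` over the integers, so that it
is an integral scheme with function field `E(V)(w)` (over `𝓞_E`), and the pencil is smooth over it.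
-/

set_option autoImplicit false
set_option maxHeartbeats 400000

namespace Pool.Agent.Y707.PL

open Polynomial NumberField IsDedekindDomain
open Pool.Agent.Y707.SF

section
variable {K : Type} [Field K] [NumberField K] {k l r : ℕ}

/-- The coordinates `x_1, …, x_k`, `y_1, …, y_l` and `w` of the base. -/
abbrev Coord (k l : ℕ) : Type := Fin k ⊕ Fin l ⊕ Unit

/-- The equations `y_i ^ 2 = G_i(x)`. -/
def baseEquations (G : Fin l → MvPolynomial (Fin k) (𝓞 K)) :
    Set (MvPolynomial (Coord k l) (𝓞 K)) :=
  Set.range fun i => MvPolynomial.X (Sum.inr (Sum.inl i)) ^ 2 - MvPolynomial.rename Sum.inl (G i)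

/-- The polynomial `2 D(x, w) ∏ G_i(x)`. -/
noncomputable def denominator (G : Fin l → MvPolynomial (Fin k) (𝓞 K))
    (D : (MvPolynomial (Fin k) (𝓞 K))[X]) : MvPolynomial (Coord k l) (𝓞 K) :=
  2 * (∏ i, MvPolynomial.rename Sum.inl (G i)) *
    D.eval₂ (MvPolynomial.rename Sum.inl : MvPolynomial (Fin k) (𝓞 K) →ₐ[𝓞 K] _).toRingHom
      (MvPolynomial.X (Sum.inr (Sum.inr ())))

/-- `D ≠ 0` in `𝓞_K[x][w]` lies in the ideals of `F`, `∂F/∂X`, `∂F/∂t` and of `F_∞` and its
derivative, for the generic member `F = a(x, t, X) + w ∏ (X - α_j(x, t))`. -/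
structure IsDiscriminant (g n : ℕ) (a : (MvPolynomial (Fin k) (𝓞 K))[X][X])
    (α : Fin r → (MvPolynomial (Fin k) (𝓞 K))[X]) (D : (MvPolynomial (Fin k) (𝓞 K))[X]) :
    Prop where
  ne_zero : D ≠ 0
  finite : C (C D) ∈ Ideal.span {family a α, derivative (family a α), dt (family a α)}
  infinite : C D ∈ Ideal.span {atInfinity g n (family a α), derivative (atInfinity g n (family a α))}

/-- The trace of the Frobenius on `H^{2j}`, `j = 0, 1, 2`, of the smooth projective surface
`Y ^ 2 = f(t, X)` over the finite field `κ`. -/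
noncomputable def evenTrace {κ : Type} [Field κ] (g n j : ℕ) (f : κ[X][X]) : ℝ :=
  if j = 0 then 1 else if j = 1 then traceTwo g n f else (Nat.card κ : ℝ) ^ 2

/-- The trace at the points `t = (x, y, w)` of the base. -/
noncomputable def surfaceTrace (g n : ℕ) (a : (MvPolynomial (Fin k) (𝓞 K))[X][X])
    (α : Fin r → (MvPolynomial (Fin k) (𝓞 K))[X]) (l j : ℕ) (κ : Type) [Field κ]
    (φ : 𝓞 K →+* κ) (t : Coord k l → κ) : ℝ :=
  evenTrace g n j (member a α φ (fun i => t (Sum.inl i)) (t (Sum.inr (Sum.inr ()))))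

/-- The rank of the group `A^j` of the classes of the cycles of codimension `j = 0, 1, 2` on the
surface, if `NS` has rank `m`. -/
def cycleRank (m j : ℕ) : ℕ := if j = 1 then m else 1

end

end Pool.Agent.Y707.PL
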