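import Pool.Agent.Y707.PL.Pole
import Pool.Agent.Y707.PL.SurfDefs

/-! Sums over the points of the base. -/

set_option autoImplicit false
set_option maxHeartbeats 400000

namespace Pool.Agent.Y707.PL

open Polynomial Finset NumberField IsDedekindDomain
open Pool.Agent.Y707.SF
open Pool.Agent.Y707.PC

section
variable {K : Type} [Field K] [NumberField K] {k l r g n : ℕ}
  {G : Fin l → MvPolynomial (Fin k) (𝓞 K)} {a : (MvPolynomial (Fin k) (𝓞 K))[X][X]}
  {α : Fin r → (MvPolynomial (Fin k) (𝓞 K))[X]} {D : (MvPolynomial (Fin k) (𝓞 K))[X]}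

theorem eval_rename {κ : Type} [Field κ] (φ : 𝓞 K →+* κ) (t : Coord k l → κ)
    (p : MvPolynomial (Fin k) (𝓞 K)) :
    MvPolynomial.eval₂ φ t (MvPolynomial.rename Sum.inl p) =
      MvPolynomial.eval₂Hom φ (fun i => t (Sum.inl i)) p := by
  rw [MvPolynomial.eval₂_rename]
  rfl

theorem eval_den {κ : Type} [Field κ] (φ : 𝓞 K →+* κ) (t : Coord k l → κ) :
    MvPolynomial.eval₂ φ t (denominator G D) =
      2 * (∏ i, MvPolynomial.eval₂Hom φ (fun i => t (Sum.inl i)) (G i)) *
        (D.map (MvPolynomial.eval₂Hom φ (fun i => t (Sum.inl i)))).eval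
          (t (Sum.inr (Sum.inr ()))) := by
  have h : ∀ p, MvPolynomial.eval₂ φ t p = MvPolynomial.eval₂Hom φ t p := fun p => rfl
  rw [h]
  unfold denominator
  rw [map_mul, map_mul, map_ofNat, map_prod, Polynomial.hom_eval₂, Polynomial.eval_map]
  have h2 : (MvPolynomial.eval₂Hom φ t).comp
      (MvPolynomial.rename Sum.inl : MvPolynomial (Fin k) (𝓞 K) →ₐ[𝓞 K]
        MvPolynomial (Coord k l) (𝓞 K)).toRingHom =
      MvPolynomial.eval₂Hom φ (fun i => t (Sum.inl i)) :=
    RingHom.ext fun p => eval_rename φ t p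
  rw [h2]
  have h3 : ∀ i, MvPolynomial.eval₂Hom φ t (MvPolynomial.rename Sum.inl (G i)) =
      MvPolynomial.eval₂Hom φ (fun i => t (Sum.inl i)) (G i) := fun i => eval_rename φ t (G i)
  simp only [h3]
  congr 2
  exact MvPolynomial.eval₂Hom_X' φ t _

theorem mem_points {κ : Type} [Field κ] (φ : 𝓞 K →+* κ) (h20 : (2 : κ) ≠ 0) (t : Coord k l → κ) :
    t ∈ points (baseEquations G) (denominator G D) φ ↔
      (∀ i, t (Sum.inr (Sum.inl i)) ^ 2 =
        MvPolynomial.eval₂Hom φ (fun i => t (Sum.inl i)) (G i)) ∧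
      (∀ i, MvPolynomial.eval₂Hom φ (fun i => t (Sum.inl i)) (G i) ≠ 0) ∧
      (D.map (MvPolynomial.eval₂Hom φ (fun i => t (Sum.inl i)))).eval
        (t (Sum.inr (Sum.inr ()))) ≠ 0 := by
  have h1 : (∀ p ∈ baseEquations G, MvPolynomial.eval₂ φ t p = 0) ↔
      ∀ i, t (Sum.inr (Sum.inl i)) ^ 2 =
        MvPolynomial.eval₂Hom φ (fun i => t (Sum.inl i)) (G i) := by
    unfold baseEquations
    rw [Set.forall_mem_range]
    refine forall_congr' fun i => ?_
    have e : MvPolynomial.eval₂ φ t (MvPolynomial.X (Sum.inr (Sum.inl i)) ^ 2 -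
        MvPolynomial.rename Sum.inl (G i)) = t (Sum.inr (Sum.inl i)) ^ 2 -
        MvPolynomial.eval₂Hom φ (fun i => t (Sum.inl i)) (G i) := by
      have h : ∀ p, MvPolynomial.eval₂ φ t p = MvPolynomial.eval₂Hom φ t p := fun p => rfl
      rw [← eval_rename φ t (G i), h, h, map_sub, map_pow, MvPolynomial.eval₂Hom_X']
    rw [e, sub_eq_zero]
  unfold points
  rw [Set.mem_setOf_eq, h1, eval_den]
  refine and_congr Iff.rfl ?_
  rw [mul_ne_zero_iff, mul_ne_zero_iff, prod_ne_zero_iff]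
  constructor
  · rintro ⟨⟨-, h3⟩, h4⟩
    exact ⟨fun i => h3 i (mem_univ i), h4⟩
  · rintro ⟨h3, h4⟩
    exact ⟨⟨h20, fun i _ => h3 i⟩, h4⟩

/-- the coordinates -/
def coordE (k l : ℕ) (κ : Type) : (Coord k l → κ) ≃ (Fin k → κ) × (Fin l → κ) × κ where
  toFun t := (fun i => t (Sum.inl i), fun i => t (Sum.inr (Sum.inl i)), t (Sum.inr (Sum.inr ())))
  invFun z := Sum.elim z.1 (Sum.elim z.2.1 fun _ => z.2.2)
  left_inv t := by
    funext i
    rcases i with i | i | i <;> rfl
  right_inv z := rfl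

theorem finsum_ite {ι : Type} [Fintype ι] (S : Set ι) (f : ι → ℝ) :
    ∑ᶠ t ∈ S, f t = by classical exact ∑ t, if t ∈ S then f t else 0 := by
  classical
  rw [← finsum_eq_sum_of_fintype]
  refine finsum_congr fun t => ?_
  by_cases h : t ∈ S
  · rw [if_pos h]
    simp [h]
  · rw [if_neg h]
    simp [h]

open Classical in
/-- the sum over the points of the base -/
theorem sum_points {κ : Type} [Field κ] [Fintype κ] (φ : 𝓞 K →+* κ) (h2 : ringChar κ ≠ 2)
    (T : (Fin k → κ) → κ → ℝ) :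
    (∑ t : Coord k l → κ, if t ∈ points (baseEquations G) (denominator G D) φ then
      T (fun i => t (Sum.inl i)) (t (Sum.inr (Sum.inr ()))) else 0) = ∑ x : Fin k → κ,
      if ∀ i, MvPolynomial.eval₂Hom φ x (G i) ≠ 0 then
      nx G φ x * ∑ w : κ, (if (D.map (MvPolynomial.eval₂Hom φ x)).eval w ≠ 0 then T x w else 0)
      else 0 := by
  have h20 : (2 : κ) ≠ 0 := Ring.two_ne_zero h2
  simp only [mem_points φ h20]
  rw [← (coordE k l κ).symm.sum_comp, Fintype.sum_prod_type]
  refine sum_congr rfl fun x _ => ?_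
  rw [Fintype.sum_prod_type]
  have e : ∀ (y : Fin l → κ) (w : κ), (if (∀ i, ((coordE k l κ).symm (x, y, w))
        (Sum.inr (Sum.inl i)) ^ 2 = MvPolynomial.eval₂Hom φ
          (fun i => ((coordE k l κ).symm (x, y, w)) (Sum.inl i)) (G i)) ∧
      (∀ i, MvPolynomial.eval₂Hom φ (fun i => ((coordE k l κ).symm (x, y, w)) (Sum.inl i))
        (G i) ≠ 0) ∧
      (D.map (MvPolynomial.eval₂Hom φ (fun i => ((coordE k l κ).symm (x, y, w))
        (Sum.inl i)))).eval (((coordE k l κ).symm (x, y, w)) (Sum.inr (Sum.inr ()))) ≠ 0 then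
      T (fun i => ((coordE k l κ).symm (x, y, w)) (Sum.inl i))
        (((coordE k l κ).symm (x, y, w)) (Sum.inr (Sum.inr ()))) else 0) =
      if (∀ i, y i ^ 2 = MvPolynomial.eval₂Hom φ x (G i)) ∧
        (∀ i, MvPolynomial.eval₂Hom φ x (G i) ≠ 0) ∧
        (D.map (MvPolynomial.eval₂Hom φ x)).eval w ≠ 0 then T x w else 0 := fun y w => rfl
  simp only [e]
  by_cases hG : ∀ i, MvPolynomial.eval₂Hom φ x (G i) ≠ 0
  · rw [if_pos hG, nx, ← card_sqrts h2, sum_mul]
    refine sum_congr rfl fun y _ => ?_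
    rw [mul_sum]
    refine sum_congr rfl fun w _ => ?_
    by_cases h4 : ∀ i, y i ^ 2 = MvPolynomial.eval₂Hom φ x (G i)
    · rw [if_pos h4, one_mul]
      by_cases h5 : (D.map (MvPolynomial.eval₂Hom φ x)).eval w ≠ 0
      · rw [if_pos h5, if_pos ⟨h4, hG, h5⟩]
      · rw [if_neg h5, if_neg fun h => h5 h.2.2]
    · rw [if_neg h4, zero_mul, if_neg fun h => h4 h.1]
  · rw [if_neg hG]
    refine sum_eq_zero fun y _ => sum_eq_zero fun w _ => ?_
    rw [if_neg fun h => hG h.2.1]

open Classical in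
/-- the number of the points -/
theorem card_points (κ : Type) [Field κ] [Finite κ] (φ : 𝓞 K →+* κ) :
    (Nat.card (points (baseEquations G) (denominator G D) φ) : ℝ) ≤
      (2 ^ l : ℝ) * (Nat.card κ : ℝ) ^ (k + 1) := by
  let _ := Fintype.ofFinite κ
  by_cases h20 : (2 : κ) = 0
  · have : IsEmpty (points (baseEquations G) (denominator G D) φ) := by
      constructor
      rintro ⟨t, ht⟩
      apply ht.2
      rw [eval_den, h20, zero_mul, zero_mul]
    rw [Nat.card_of_isEmpty]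
    push_cast
    positivity
  have h2 : ringChar κ ≠ 2 := ringChar_of_two h20
  have h1 := sum_points (G := G) (D := D) φ h2 fun _ _ => 1
  have h3 : (Nat.card (points (baseEquations G) (denominator G D) φ) : ℝ) =
      ∑ t : Coord k l → κ, if t ∈ points (baseEquations G) (denominator G D) φ then (1 : ℝ)
        else 0 := by
    rw [sum_boole, Nat.card_eq_fintype_card, ← Fintype.card_subtype]
  rw [h3, h1, Nat.card_eq_fintype_card]
  have h4 : ∀ x : Fin k → κ, (if ∀ i, MvPolynomial.eval₂Hom φ x (G i) ≠ 0 then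
      nx G φ x * ∑ w : κ, (if (D.map (MvPolynomial.eval₂Hom φ x)).eval w ≠ 0 then (1 : ℝ) else 0)
      else 0) ≤ 2 ^ l * Fintype.card κ := by
    intro x
    obtain ⟨h5, h6⟩ := nx_bd (G := G) φ x
    split_ifs
    · refine mul_le_mul h6 ?_ (sum_nonneg fun w _ => by split_ifs <;> norm_num) (by positivity)
      refine (sum_le_sum (g := fun _ => (1 : ℝ)) fun w _ => by split_ifs <;> norm_num).trans ?_
      rw [sum_const, card_univ, nsmul_eq_mul, mul_one]
    · positivity
  refine (sum_le_sum fun x _ => h4 x).trans ?_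
  rw [sum_const, card_univ, Fintype.card_fun, Fintype.card_fin, nsmul_eq_mul]
  push_cast
  rw [pow_succ]
  exact le_of_eq (by ring)

end

end Pool.Agent.Y707.PL
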