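import Pool.Agent.Y707.PL.Surf

/-! The averages over the points of the base. -/

set_option autoImplicit false
set_option maxHeartbeats 400000

namespace Pool.Agent.Y707.PL

open Polynomial Finset NumberField IsDedekindDomain
open Pool.Agent.Y707.SF
open Pool.Agent.Y707.PC

section
variable {K : Type} [Field K] [NumberField K] {k l r g n : ℕ}
  {G : Fin l → MvPolynomial (Fin k) (𝓞 K)} {a : (MvPolynomial (Fin k) (𝓞 K))[X][X]}
  {α : Fin r → (MvPolynomial (Fin k) (𝓞 K))[X]} {D : (MvPolynomial (Fin k) (𝓞 K))[X]}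

open Classical in
/-- the number of the points of the base -/
theorem count_asy (h : IsSurfacePencil g n G a α) (hD : IsDiscriminant g n a α D) :
    ∃ (B : ℝ) (c : 𝓞 K), 0 ≤ B ∧ c ≠ 0 ∧
    ∀ (κ : Type) [Field κ] [Fintype κ] (φ : 𝓞 K →+* κ), φ c ≠ 0 →
      |((Fintype.card κ : ℝ) ^ (k + 1))⁻¹ * (∑ t : Coord k l → κ,
        if t ∈ points (baseEquations G) (denominator G D) φ then (1 : ℝ) else 0) - 1| *
        Real.sqrt (Fintype.card κ) ≤ B := by
  have hG : ∀ i, G i ≠ 0 := ne_of_ind h.independent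
  set N : MvPolynomial (Fin k) (𝓞 K) := (∏ i, G i) * D.leadingCoeff with hN
  have hN0 : N ≠ 0 := mul_ne_zero (prod_ne_zero_iff.2 fun i _ => hG i)
    (leadingCoeff_ne_zero.2 hD.ne_zero)
  obtain ⟨Dg, c, hDg, hc, hfam⟩ := fam_sum hN0
  obtain ⟨B0, c0, hB0, hc0, hnx⟩ := sum_nx h.independent
  refine ⟨2 ^ l * D.natDegree + 2 ^ l * Dg + B0, 2 * (c * c0), by positivity,
    mul_ne_zero two_ne_zero (mul_ne_zero hc hc0), ?_⟩
  intro κ _ _ φ hφ
  rw [map_mul, map_mul, map_ofNat] at hφ
  have h20 : (2 : κ) ≠ 0 := left_ne_zero_of_mul hφ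
  have h2 : ringChar κ ≠ 2 := ringChar_of_two h20
  obtain ⟨hr1, hr2, hr3⟩ := sqrt_facts κ
  have hq : (0 : ℝ) < Fintype.card κ := by exact_mod_cast Fintype.card_pos (α := κ)
  set s := Real.sqrt (Fintype.card κ) with hs
  set q : ℝ := (Fintype.card κ : ℝ) with hqd
  set Tx : (Fin k → κ) → ℝ := fun x =>
    (if ∀ i, MvPolynomial.eval₂Hom φ x (G i) ≠ 0 then nx G φ x * ∑ w : κ,
      (if (D.map (MvPolynomial.eval₂Hom φ x)).eval w ≠ 0 then (1 : ℝ) else 0) else 0) -
    q * nx G φ x with hT
  have hnn : ∀ x, 0 ≤ nx G φ x := fun x => (nx_bd φ x).1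
  have hcnt : ∀ x : Fin k → κ, (∑ w : κ, (if (D.map (MvPolynomial.eval₂Hom φ x)).eval w ≠ 0 then
      (1 : ℝ) else 0)) = q - ((univ.filter fun w : κ =>
        (D.map (MvPolynomial.eval₂Hom φ x)).eval w = 0).card : ℝ) := by
    intro x
    have e : ∀ w : κ, (if (D.map (MvPolynomial.eval₂Hom φ x)).eval w ≠ 0 then (1 : ℝ) else 0) =
        1 - if (D.map (MvPolynomial.eval₂Hom φ x)).eval w = 0 then 1 else 0 := by
      intro w
      by_cases h0 : (D.map (MvPolynomial.eval₂Hom φ x)).eval w = 0
      · rw [if_neg (not_not.2 h0), if_pos h0, sub_self]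
      · rw [if_pos h0, if_neg h0, sub_zero]
    rw [sum_congr rfl fun w _ => e w, sum_sub_distrib, sum_const, card_univ, nsmul_eq_mul,
      mul_one, sum_boole]
  have h1 := hfam κ φ (left_ne_zero_of_mul (right_ne_zero_of_mul hφ)) Tx (2 ^ l * D.natDegree)
    (2 ^ l) (by positivity) (by positivity) (by
      intro x hx
      rw [hN, map_mul, map_prod] at hx
      have hG' : ∀ i, MvPolynomial.eval₂Hom φ x (G i) ≠ 0 := fun i =>
        prod_ne_zero_iff.1 (left_ne_zero_of_mul hx) i (mem_univ i)
      have h5 := card_zeros (map_ne (right_ne_zero_of_mul hx))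
      have h6 : ((D.map (MvPolynomial.eval₂Hom φ x)).natDegree : ℝ) ≤ D.natDegree := by
        exact_mod_cast natDegree_map_le
      simp only [hT]
      rw [if_pos hG', hcnt]
      have e : nx G φ x * (q - ((univ.filter fun w : κ =>
        (D.map (MvPolynomial.eval₂Hom φ x)).eval w = 0).card : ℝ)) - q * nx G φ x =
          -(nx G φ x * ((univ.filter fun w : κ =>
        (D.map (MvPolynomial.eval₂Hom φ x)).eval w = 0).card : ℝ)) := by ring
      rw [e, abs_neg, _root_.abs_mul, abs_of_nonneg (hnn x), Nat.abs_cast]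
      exact mul_le_mul (nx_bd φ x).2 (h5.trans h6) (Nat.cast_nonneg _) (by positivity)) (by
      intro x
      have h5 := hnn x
      have h6 := (nx_bd (G := G) φ x).2
      have h7 : (∑ w : κ, (if (D.map (MvPolynomial.eval₂Hom φ x)).eval w ≠ 0 then
          (1 : ℝ) else 0)) ≤ q := by
        rw [hcnt]
        have : (0 : ℝ) ≤ ((univ.filter fun w : κ =>
          (D.map (MvPolynomial.eval₂Hom φ x)).eval w = 0).card : ℝ) := Nat.cast_nonneg _
        linarith
      have h8 : (0 : ℝ) ≤ ∑ w : κ, (if (D.map (MvPolynomial.eval₂Hom φ x)).eval w ≠ 0 then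
          (1 : ℝ) else 0) := sum_nonneg fun w _ => by split_ifs <;> norm_num
      have h9 := mul_le_mul_of_nonneg_right h6 hq.le
      have h10 := mul_le_mul_of_nonneg_left h7 h5
      have h11 := mul_nonneg h5 h8
      have h12 := mul_nonneg hq.le h5
      simp only [hT]
      split_ifs
      · rw [abs_le]
        constructor <;> nlinarith
      · rw [zero_sub, abs_neg, abs_of_nonneg h12]
        linarith)
  have h3 : ∑ x, Tx x = (∑ t : Coord k l → κ,
      if t ∈ points (baseEquations G) (denominator G D) φ then (1 : ℝ) else 0) -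
      q * ∑ x : Fin k → κ, nx G φ x := by
    rw [sum_points (G := G) (D := D) φ h2 fun _ _ => 1, mul_sum, ← sum_sub_distrib]
  rw [h3] at h1
  have h4 := hnx κ φ (right_ne_zero_of_mul (right_ne_zero_of_mul hφ))
  set S := (∑ t : Coord k l → κ,
      if t ∈ points (baseEquations G) (denominator G D) φ then (1 : ℝ) else 0) with hS
  set X0 := ∑ x : Fin k → κ, nx G φ x with hX0
  set Q := q ^ k with hQ
  have hQ0 : 0 < Q := by positivity
  have h5 : |S - q * Q| * s ≤ (2 ^ l * D.natDegree + 2 ^ l * Dg + B0) * (Q * q) := by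
    have e : S - q * Q = (S - q * X0) + q * (X0 - Q) := by ring
    have h6 : |S - q * Q| ≤ |S - q * X0| + q * |X0 - Q| := by
      rw [e]
      refine (abs_add_le _ _).trans ?_
      rw [_root_.abs_mul q, abs_of_pos hq]
    have h7 := mul_le_mul_of_nonneg_right h6 (by linarith : (0 : ℝ) ≤ s)
    have h8 := mul_le_mul h1 hr3 (by linarith) (by positivity)
    have h9 := mul_le_mul_of_nonneg_left h4 hq.le
    nlinarith
  rw [pow_succ, ← hQ]
  have e2 : (Q * q)⁻¹ * S - 1 = (Q * q)⁻¹ * (S - q * Q) := by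
    field_simp
  have hQq : 0 < Q * q := by positivity
  rw [e2, _root_.abs_mul, abs_of_pos (inv_pos.2 hQq), mul_assoc, inv_mul_le_iff₀ hQq, mul_comm (Q * q)]
  exact h5

open Classical in
/-- the traces over the points of the base -/
theorem trace_asy (h : IsSurfacePencil g n G a α) (hD : IsDiscriminant g n a α D) :
    ∃ (B : ℝ) (c : 𝓞 K), 0 ≤ B ∧ c ≠ 0 ∧
    ∀ (κ : Type) [Field κ] [Fintype κ] (φ : 𝓞 K →+* κ), φ c ≠ 0 →
      |((Fintype.card κ : ℝ) ^ (k + 1))⁻¹ * (∑ t : Coord k l → κ,
        if t ∈ points (baseEquations G) (denominator G D) φ then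
          traceTwo g n (member a α φ (fun i => t (Sum.inl i)) (t (Sum.inr (Sum.inr ())))) else 0) -
        averageTwo g n G a α φ| ≤ B * Real.sqrt (Fintype.card κ) := by
  have hN0 : D.leadingCoeff ≠ 0 := leadingCoeff_ne_zero.2 hD.ne_zero
  obtain ⟨Dg, c, hDg, hc, hfam⟩ := fam_sum hN0
  refine ⟨2 ^ l * (D.natDegree * (4 * g + 2)) + 2 ^ l * (4 * g + 2) * Dg, 2 * c, by positivity,
    mul_ne_zero two_ne_zero hc, ?_⟩
  intro κ _ _ φ hφ
  rw [map_mul, map_ofNat] at hφ
  have h20 : (2 : κ) ≠ 0 := left_ne_zero_of_mul hφ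
  have h2 : ringChar κ ≠ 2 := ringChar_of_two h20
  obtain ⟨hr1, hr2, hr3⟩ := sqrt_facts κ
  have hq : (0 : ℝ) < Fintype.card κ := by exact_mod_cast Fintype.card_pos (α := κ)
  set s := Real.sqrt (Fintype.card κ) with hs
  set q : ℝ := (Fintype.card κ : ℝ) with hqd
  set SD : (Fin k → κ) → ℝ := fun x => ∑ w : κ,
      (if (D.map (MvPolynomial.eval₂Hom φ x)).eval w ≠ 0 then
        traceTwo g n (member a α φ x w) else 0) with hSD
  set Tx : (Fin k → κ) → ℝ := fun x =>
    (if ∀ i, MvPolynomial.eval₂Hom φ x (G i) ≠ 0 then nx G φ x * SD x else 0) -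
    (if ∀ i, MvPolynomial.eval₂Hom φ x (G i) ≠ 0 then nx G φ x * sm g n a α φ x else 0) with hT
  have hnn : ∀ x, 0 ≤ nx G φ x := fun x => (nx_bd φ x).1
  have hdiff : ∀ x : Fin k → κ, |SD x - sm g n a α φ x| ≤ ((univ.filter fun w : κ =>
      (D.map (MvPolynomial.eval₂Hom φ x)).eval w = 0).card : ℝ) * ((4 * g + 2) * (q * s)) := by
    intro x
    have e : SD x - sm g n a α φ x = ∑ w : κ,
        ((if (D.map (MvPolynomial.eval₂Hom φ x)).eval w ≠ 0 then
          traceTwo g n (member a α φ x w) else 0) -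
        (if IsSmoothSurface g n (member a α φ x w) then
          traceTwo g n (member a α φ x w) else 0)) := by
      rw [sum_sub_distrib]
      rfl
    rw [e]
    have h5 : ∀ w : κ, |(if (D.map (MvPolynomial.eval₂Hom φ x)).eval w ≠ 0 then
          traceTwo g n (member a α φ x w) else 0) -
        (if IsSmoothSurface g n (member a α φ x w) then
          traceTwo g n (member a α φ x w) else 0)| ≤
        if (D.map (MvPolynomial.eval₂Hom φ x)).eval w = 0 then (4 * g + 2) * (q * s) else 0 := by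
      intro w
      by_cases h6 : (D.map (MvPolynomial.eval₂Hom φ x)).eval w = 0
      · rw [if_neg (not_not.2 h6), if_pos h6, zero_sub, abs_neg]
        split_ifs
        · exact tr_abs h h2 φ x w
        · rw [abs_zero]
          positivity
      · have h7 : IsSmoothSurface g n (member a α φ x w) :=
          smooth_member h20 h hD.finite hD.infinite (MvPolynomial.eval₂Hom φ x) w h6
        rw [if_pos h6, if_pos h7, if_neg h6, sub_self, abs_zero]
    refine (abs_sum_le_sum_abs _ _).trans ((sum_le_sum fun w _ => h5 w).trans (le_of_eq ?_))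
    rw [← sum_filter, sum_const, nsmul_eq_mul]
  have hfac : (0 : ℝ) ≤ (4 * g + 2) * (q * s) := by positivity
  have h1 := hfam κ φ (right_ne_zero_of_mul hφ) Tx (2 ^ l * (D.natDegree * ((4 * g + 2) * (q * s))))
    (2 ^ l * ((4 * g + 2) * (q * s))) (by positivity) (by positivity) (by
      intro x hx
      have h5 := card_zeros (map_ne hx)
      have h6 : ((D.map (MvPolynomial.eval₂Hom φ x)).natDegree : ℝ) ≤ D.natDegree := by
        exact_mod_cast natDegree_map_le
      have h7 := (hdiff x).trans (mul_le_mul_of_nonneg_right (h5.trans h6) hfac)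
      simp only [hT]
      split_ifs
      · rw [← mul_sub, _root_.abs_mul, abs_of_nonneg (hnn x)]
        exact mul_le_mul (nx_bd φ x).2 h7 (abs_nonneg _) (by positivity)
      · rw [sub_zero, abs_zero]
        positivity) (by
      intro x
      have h6 : ((univ.filter fun w : κ =>
          (D.map (MvPolynomial.eval₂Hom φ x)).eval w = 0).card : ℝ) ≤ q := by
        rw [hqd]
        exact_mod_cast (card_filter_le _ _).trans (le_of_eq card_univ)
      have h7 := (hdiff x).trans (mul_le_mul_of_nonneg_right h6 hfac)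
      simp only [hT]
      split_ifs
      · rw [← mul_sub, _root_.abs_mul, abs_of_nonneg (hnn x)]
        refine (mul_le_mul (nx_bd φ x).2 h7 (abs_nonneg _) (by positivity)).trans (le_of_eq ?_)
        ring
      · rw [sub_zero, abs_zero]
        positivity)
  have h3 : ∑ x, Tx x = (∑ t : Coord k l → κ,
      if t ∈ points (baseEquations G) (denominator G D) φ then
        traceTwo g n (member a α φ (fun i => t (Sum.inl i)) (t (Sum.inr (Sum.inr ())))) else 0) -
      ∑ᶠ P ∈ goodPoints g n G a α φ, traceTwo g n (member a α φ P.1 P.2.2) := by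
    rw [sum_points (G := G) (D := D) φ h2 fun x w => traceTwo g n (member a α φ x w),
      sum_good φ h2 fun x w => traceTwo g n (member a α φ x w), ← sum_sub_distrib]
    rfl
  rw [h3] at h1
  unfold averageTwo
  rw [Nat.card_eq_fintype_card, ← mul_sub, _root_.abs_mul]
  have hQ0 : 0 < q ^ (k + 1) := by positivity
  rw [abs_of_pos (inv_pos.2 hQ0), inv_mul_le_iff₀ hQ0]
  refine h1.trans (le_of_eq ?_)
  rw [pow_succ]
  ring

end

end Pool.Agent.Y707.PL
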