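import Pool.Agent.Y707.PL.SurfAvg

/-! **Poles of the `L`-functions of pencils of surfaces.** -/

set_option autoImplicit false
set_option maxHeartbeats 400000

namespace Pool.Agent.Y707.PL

open Polynomial NumberField IsDedekindDomain Filter
open Pool.Agent.Y707.SF
open Pool.Agent.Y707.PC
open Pool.Agent.Y707.RX (cmb key)
open Pool.Agent.Y707.PH (Off averageValue)
open Pool.Agent.W353.FB (finite_below)
open Pool.Agent.W353.TD (rank)
open Pool.Agent.H921R2.TatePole (kerPrime)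
open Pool.Agent.W385.CP (hom_int)

section
variable {K : Type} [Field K] [NumberField K]

theorem half_bound {x B q : ℝ} (hq : 0 < q) (h : x * Real.sqrt q ≤ B) :
    x ≤ B * q ^ (-(1 / 2) : ℝ) := by
  have h1 : 0 < Real.sqrt q := Real.sqrt_pos.2 hq
  rw [Real.rpow_neg hq.le, ← Real.sqrt_eq_rpow, ← div_eq_mul_inv, le_div_iff₀ h1]
  exact h

/-- almost all prime numbers are good -/
theorem good_primes {c : 𝓞 K} (hc : c ≠ 0) :
    ∀ᶠ p : Nat.Primes in cofinite, haveI : Fact (p : ℕ).Prime := ⟨p.2⟩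
      ∀ ψ : 𝓞 K →+* ZMod (p : ℕ), ψ c ≠ 0 := by
  have h := ae_notMem hc
  rw [Filter.eventually_cofinite] at h
  filter_upwards [finite_below (F := K) h] with p hp ψ h0
  haveI : Fact (p : ℕ).Prime := ⟨p.2⟩
  exact hp ψ fun h1 => h1 h0

/-- the sum over the homomorphisms -/
theorem sum_approx {F : Type} [Field F] [NumberField F] [Algebra K F]
    {u v : ∀ (p : Nat.Primes), (𝓞 K →+* ZMod (p : ℕ)) → ℝ} {B : ℝ} (hB : 0 ≤ B)
    (h : ∀ᶠ p : Nat.Primes in cofinite, ∀ ψ : 𝓞 K →+* ZMod (p : ℕ),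
      |u p ψ - v p ψ| ≤ B * ((p : ℕ) : ℝ) ^ (-(1 / 2) : ℝ)) :
    ∀ᶠ p : Nat.Primes in cofinite, |(∑ᶠ ψ : 𝓞 F →+* ZMod (p : ℕ),
      u p (ψ.comp (algebraMap (𝓞 K) (𝓞 F)))) - ∑ᶠ ψ : 𝓞 F →+* ZMod (p : ℕ),
      v p (ψ.comp (algebraMap (𝓞 K) (𝓞 F)))| ≤
        (Module.finrank ℤ (𝓞 F) * B) * ((p : ℕ) : ℝ) ^ (-(1 / 2) : ℝ) := by
  classical
  filter_upwards [h] with p hp
  haveI : Fact (p : ℕ).Prime := ⟨p.2⟩
  have hfin := hom_int F (ZMod (p : ℕ))
  have hf1 := hfin.1
  let _ := Fintype.ofFinite (𝓞 F →+* ZMod (p : ℕ))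
  rw [finsum_eq_sum_of_fintype, finsum_eq_sum_of_fintype, ← Finset.sum_sub_distrib]
  refine (Finset.abs_sum_le_sum_abs _ _).trans ?_
  refine (Finset.sum_le_card_nsmul _ _ _ fun ψ _ => hp _).trans ?_
  rw [nsmul_eq_mul, Finset.card_univ, ← Nat.card_eq_fintype_card, mul_assoc]
  refine mul_le_mul_of_nonneg_right ?_ (by positivity)
  exact_mod_cast hfin.2

end

section
variable {K : Type} [Field K] [NumberField K] {k l r g n : ℕ}
  {G : Fin l → MvPolynomial (Fin k) (𝓞 K)} {a : (MvPolynomial (Fin k) (𝓞 K))[X][X]}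
  {α : Fin r → (MvPolynomial (Fin k) (𝓞 K))[X]} {D : (MvPolynomial (Fin k) (𝓞 K))[X]}

/-- the averages for `H⁰` and `H⁴` -/
theorem av_one (h : IsSurfacePencil g n G a α) (hD : IsDiscriminant g n a α D) {j : ℕ}
    (hj : j = 0 ∨ j = 2) :
    ∃ (B : ℝ) (c : 𝓞 K), 0 ≤ B ∧ c ≠ 0 ∧
    ∀ (κ : Type) [Field κ] [Fintype κ] (φ : 𝓞 K →+* κ), φ c ≠ 0 →
      |avT (baseEquations G) (denominator G D) (surfaceTrace g n a α l j) (k + 1 + j) φ - 1| *
        Real.sqrt (Fintype.card κ) ≤ B := by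
  classical
  obtain ⟨B, c, hB, hc, h1⟩ := count_asy h hD
  refine ⟨B, c, hB, hc, ?_⟩
  intro κ _ _ φ hφ
  have h2 := h1 κ φ hφ
  refine le_trans (le_of_eq ?_) h2
  congr 2
  unfold avT
  rw [finsum_ite, Nat.card_eq_fintype_card]
  have hq : (0 : ℝ) < Fintype.card κ := by exact_mod_cast Fintype.card_pos (α := κ)
  have e : ∀ t : Coord k l → κ, surfaceTrace g n a α l j κ φ t = (Fintype.card κ : ℝ) ^ j := by
    intro t
    unfold surfaceTrace evenTrace
    rcases hj with rfl | rfl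
    · rw [if_pos rfl, pow_zero]
    · rw [if_neg (by norm_num), if_neg (by norm_num), Nat.card_eq_fintype_card]
  have e2 : (∑ t : Coord k l → κ, if t ∈ points (baseEquations G) (denominator G D) φ then
      surfaceTrace g n a α l j κ φ t else 0) = (Fintype.card κ : ℝ) ^ j *
      ∑ t : Coord k l → κ, if t ∈ points (baseEquations G) (denominator G D) φ then (1 : ℝ)
        else 0 := by
    rw [Finset.mul_sum]
    refine Finset.sum_congr rfl fun t _ => ?_
    rw [e]
    split_ifs <;> ring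
  rw [e2, pow_add, mul_inv]
  field_simp

/-- the averages for `H²` -/
theorem av_two (h : IsSurfacePencil g n G a α) (hD : IsDiscriminant g n a α D) :
    ∃ (B : ℝ) (c : 𝓞 K), 0 ≤ B ∧ c ≠ 0 ∧
    ∀ (κ : Type) [Field κ] [Fintype κ] (φ : 𝓞 K →+* κ), φ c ≠ 0 →
      |avT (baseEquations G) (denominator G D) (surfaceTrace g n a α l 1) (k + 1 + 1) φ -
        (2 + ((Fintype.card κ : ℝ) ^ (k + 1 + 1))⁻¹ * TT g (G1 G) (a1 a) (α1 α) φ)| *
        Real.sqrt (Fintype.card κ) ≤ B := by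
  classical
  obtain ⟨B, c, hB, hc, h1⟩ := trace_asy h hD
  obtain ⟨B', c', hB', hc', h1'⟩ := average_asy h
  refine ⟨B + B', c * c', by positivity, mul_ne_zero hc hc', ?_⟩
  intro κ _ _ φ hφ
  rw [map_mul] at hφ
  have h2 := h1 κ φ (left_ne_zero_of_mul hφ)
  have h3 := h1' κ φ (right_ne_zero_of_mul hφ)
  obtain ⟨hr1, hr2, hr3⟩ := sqrt_facts κ
  have hq : (0 : ℝ) < Fintype.card κ := by exact_mod_cast Fintype.card_pos (α := κ)
  unfold avT
  rw [finsum_ite, Nat.card_eq_fintype_card]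
  have e : ∀ t : Coord k l → κ, surfaceTrace g n a α l 1 κ φ t =
      traceTwo g n (member a α φ (fun i => t (Sum.inl i)) (t (Sum.inr (Sum.inr ())))) := by
    intro t
    unfold surfaceTrace evenTrace
    rw [if_neg (by norm_num), if_pos rfl]
  simp only [e]
  set S := (∑ t : Coord k l → κ,
      if t ∈ points (baseEquations G) (denominator G D) φ then
        traceTwo g n (member a α φ (fun i => t (Sum.inl i)) (t (Sum.inr (Sum.inr ())))) else 0)
  set A := averageTwo g n G a α φ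
  set Z := 2 + ((Fintype.card κ : ℝ) ^ (k + 1 + 1))⁻¹ * TT g (G1 G) (a1 a) (α1 α) φ
  set s := Real.sqrt (Fintype.card κ) with hs
  set q : ℝ := (Fintype.card κ : ℝ) with hqd
  have h4 : |(q ^ (k + 1))⁻¹ * S - q * Z| ≤ (B + B') * s := by
    have e1 : (q ^ (k + 1))⁻¹ * S - q * Z = ((q ^ (k + 1))⁻¹ * S - A) + (A - q * Z) := by ring
    rw [e1, add_mul]
    exact (abs_add_le _ _).trans (add_le_add h2 h3)
  have e2 : (q ^ (k + 1 + 1))⁻¹ * S - Z = q⁻¹ * ((q ^ (k + 1))⁻¹ * S - q * Z) := by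
    rw [pow_succ]
    field_simp
  rw [e2, _root_.abs_mul, abs_of_pos (inv_pos.2 hq), mul_assoc, inv_mul_le_iff₀ hq]
  refine (mul_le_mul_of_nonneg_right h4 (by linarith)).trans (le_of_eq ?_)
  rw [mul_assoc, ← pow_two, hr2]
  ring

/-- **The poles.** -/
theorem surface_pole (h : IsSurfacePencil g n G a α) (hD : IsDiscriminant g n a α D)
    (E : IntermediateField K (AlgebraicClosure K)) [NumberField E]
    (R : Finset (HeightOneSpectrum (𝓞 E))) {j : ℕ} (hj : j ≤ 2) {B : ℕ}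
    {β : closedPoints (baseEquations G) (denominator G D) E R → Multiset ℂ}
    (hβ : IsFrobenius (surfaceTrace g n a α l j) j B β) :
    HasPole (fun y : closedPoints (baseEquations G) (denominator G D) E R => cardAt y.1) β
      (k + 1 + 1 + j) (cycleRank (classes G a α E + 2) j) := by
  classical
  by_cases hj1 : j = 1
  · subst hj1
    obtain ⟨B', c, hB', hc, hav⟩ := av_two h hD
    have hd := a1_deg (g := g) h.monic h.degree
    -- the values
    set P := averageValue (pencil g (G1 G) (a1 a) (α1 α)) with hP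
    let δ : ∀ (κ : Type) [Field κ], (𝓞 K →+* κ) → ℝ := fun κ _ φ =>
      if h : ∃ z, P κ φ z then h.choose else 0
    have hval : ∀ (κ : Type) [Field κ] [Finite κ] (φ : 𝓞 K →+* κ),
        Off (∅ : Finset (HeightOneSpectrum (𝓞 K))) φ → ∀ z : ℝ, P κ φ z → z = δ κ φ := by
      intro κ _ _ φ _ z hz
      have h : ∃ z, P κ φ z := ⟨z, hz⟩
      have e : δ κ φ = h.choose := dif_pos h
      rw [e]
      exact Pool.Agent.Y707.PR.uniq_average κ φ z _ hz h.choose_spec
    obtain ⟨δ', y, hy, hy0, hδ', hpart⟩ := isPartOf (G := G1 G) hd.1 hd.2 h.number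
      (eval_a1_ne h.nonzero) (alpha1_inj h.distinct) (ne_of_ind (indep1 h.independent))
    have hrank := rank_eq (G := G1 G) (eval_a1_ne h.nonzero) (ne_of_ind (indep1 h.independent))
      (indep1 h.independent) (hy := hy) (hy0 := hy0) hδ' E
    have hrank2 : rank (rp hy hy0) E = classes G a α E := by
      rw [← count_eq]
      exact hrank
    obtain ⟨κ, hκ, L, hL, b, D', hb, hk⟩ := key (R := ∅) (δ := δ) hpart hval E
    let L' : Option κ → IntermediateField K (AlgebraicClosure K) := fun j => j.elim E fun i => L i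
    have i2 : ∀ j, NumberField (L' j) := by
      rintro (_ | i)
      · exact inferInstanceAs (NumberField E)
      · exact hL i
    let b' : Option κ → ℝ := fun j => j.elim (-2 : ℝ) fun i => -b i
    have hcmb : ∀ p : Nat.Primes, cmb (fun j => L' j) b' p =
        -(2 * (Nat.card (𝓞 E →+* ZMod (p : ℕ)) : ℂ)) - cmb (fun j => L j) b p := by
      intro p
      unfold cmb
      rw [Fintype.sum_option, sub_eq_add_neg, ← Finset.sum_neg_distrib]
      congr 1
      · show ((-2 : ℝ) : ℂ) * (Nat.card (𝓞 E →+* ZMod (p : ℕ)) : ℂ) = _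
        push_cast
        ring
      · refine Finset.sum_congr rfl fun i _ => ?_
        show ((-b i : ℝ) : ℂ) * (Nat.card (𝓞 (L i) →+* ZMod (p : ℕ)) : ℂ) = _
        push_cast
        ring
    have hb' : ∑ j, b' j = ((-((cycleRank (classes G a α E + 2) 1 : ℕ) : ℤ) : ℤ) : ℝ) := by
      rw [Fintype.sum_option]
      show (-2 : ℝ) + ∑ i, -b i = _
      rw [Finset.sum_neg_distrib, hb, hrank2]
      unfold cycleRank
      rw [if_pos rfl]
      push_cast
      ring
    have happ := sum_approx (F := E)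
      (u := fun p ψ => haveI : Fact (p : ℕ).Prime := ⟨p.2⟩
        avT (baseEquations G) (denominator G D) (surfaceTrace g n a α l 1) (k + 1 + 1) ψ)
      (v := fun p ψ => haveI : Fact (p : ℕ).Prime := ⟨p.2⟩
        2 + δ (ZMod (p : ℕ)) ψ) hB' (by
        filter_upwards [good_primes hc] with p hp ψ
        haveI : Fact (p : ℕ).Prime := ⟨p.2⟩
        have h1 := hav (ZMod (p : ℕ)) ψ (hp ψ)
        rw [ZMod.card] at h1
        have h2 : δ (ZMod (p : ℕ)) ψ = (((p : ℕ) : ℝ) ^ (k + 1 + 1))⁻¹ *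
            TT g (G1 G) (a1 a) (α1 α) ψ := by
          have h3 := hval (ZMod (p : ℕ)) ψ (fun v hv => absurd hv (Finset.notMem_empty v)) _
            ((averageValue_iff hd.1 hd.2 h.number ψ _).2 rfl)
          rw [← h3, Nat.card_zmod]
        rw [h2]
        exact half_bound (by exact_mod_cast p.2.pos) h1)
    refine pole_of (m := k + 1) (C := 2 ^ l) hβ (fun κ _ _ φ => card_points κ φ)
      (L := fun j => L' j) (a := b') (D := Module.finrank ℤ (𝓞 E) * B' + D') hb' ?_
    filter_upwards [happ, hk] with p h1 h2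
    haveI : Fact (p : ℕ).Prime := ⟨p.2⟩
    have hfin := hom_int E (ZMod (p : ℕ))
    have hf1 := hfin.1
    let _ := Fintype.ofFinite (𝓞 E →+* ZMod (p : ℕ))
    have e1 : (∑ᶠ ψ : 𝓞 E →+* ZMod (p : ℕ), (2 + δ (ZMod (p : ℕ))
        (ψ.comp (algebraMap (𝓞 K) (𝓞 E))))) = 2 * (Nat.card (𝓞 E →+* ZMod (p : ℕ)) : ℝ) +
        RX.sm ∅ E δ (ZMod (p : ℕ)) := by
      unfold RX.sm
      rw [finsum_eq_sum_of_fintype, finsum_eq_sum_of_fintype, Finset.sum_add_distrib,
        Finset.sum_const, Finset.card_univ, nsmul_eq_mul, Nat.card_eq_fintype_card, mul_comm]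
      congr 1
      refine Finset.sum_congr rfl fun ψ _ => ?_
      have h6 : Off (∅ : Finset (HeightOneSpectrum (𝓞 K)))
          (ψ.comp (algebraMap (𝓞 K) (𝓞 E))) := fun v hv => absurd hv (Finset.notMem_empty v)
      rw [if_pos h6]
    rw [e1] at h1
    rw [hcmb, add_mul]
    set S := ∑ᶠ φ : 𝓞 E →+* ZMod (p : ℕ),
      avT (baseEquations G) (denominator G D) (surfaceTrace g n a α l 1) (k + 1 + 1) (rs K φ)
      with hS
    have e2 : ((S : ℝ) : ℂ) + (-(2 * (Nat.card (𝓞 E →+* ZMod (p : ℕ)) : ℂ)) -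
        cmb (fun j => L j) b p) =
        ((S - (2 * (Nat.card (𝓞 E →+* ZMod (p : ℕ)) : ℝ) + RX.sm ∅ E δ (ZMod (p : ℕ))) : ℝ) : ℂ) -
        (((-RX.sm ∅ E δ (ZMod (p : ℕ)) : ℝ) : ℂ) + cmb (fun j => L j) b p) := by
      push_cast
      ring
    rw [e2]
    refine (norm_sub_le _ _).trans (add_le_add ?_ h2)
    rw [Complex.norm_real]
    exact h1
  · have hj2 : j = 0 ∨ j = 2 := by omega
    obtain ⟨B', c, hB', hc, hav⟩ := av_one h hD hj2
    have hb' : ∑ _i : Unit, (-1 : ℝ) =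
        ((-((cycleRank (classes G a α E + 2) j : ℕ) : ℤ) : ℤ) : ℝ) := by
      unfold cycleRank
      rw [if_neg hj1]
      simp
    have happ := sum_approx (F := E)
      (u := fun p ψ => haveI : Fact (p : ℕ).Prime := ⟨p.2⟩
        avT (baseEquations G) (denominator G D) (surfaceTrace g n a α l j) (k + 1 + j) ψ)
      (v := fun p ψ => 1) hB' (by
        filter_upwards [good_primes hc] with p hp ψ
        haveI : Fact (p : ℕ).Prime := ⟨p.2⟩
        have h1 := hav (ZMod (p : ℕ)) ψ (hp ψ)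
        rw [ZMod.card] at h1
        exact half_bound (by exact_mod_cast p.2.pos) h1)
    refine pole_of (m := k + 1) (C := 2 ^ l) hβ (fun κ _ _ φ => card_points κ φ)
      (ι := Unit) (L := fun _ => E) (a := fun _ => (-1 : ℝ)) (D := Module.finrank ℤ (𝓞 E) * B')
      hb' ?_
    filter_upwards [happ] with p h1
    haveI : Fact (p : ℕ).Prime := ⟨p.2⟩
    have hfin := hom_int E (ZMod (p : ℕ))
    have hf1 := hfin.1
    let _ := Fintype.ofFinite (𝓞 E →+* ZMod (p : ℕ))
    have e1 : (∑ᶠ ψ : 𝓞 E →+* ZMod (p : ℕ), (1 : ℝ)) =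
        (Nat.card (𝓞 E →+* ZMod (p : ℕ)) : ℝ) := by
      rw [finsum_eq_sum_of_fintype, Finset.sum_const, Finset.card_univ, nsmul_eq_mul, mul_one,
        Nat.card_eq_fintype_card]
    rw [e1] at h1
    have e2 : cmb (fun _ : Unit => E) (fun _ => (-1 : ℝ)) p =
        -(Nat.card (𝓞 E →+* ZMod (p : ℕ)) : ℂ) := by
      unfold cmb
      simp
    rw [e2, ← Complex.ofReal_natCast, ← Complex.ofReal_neg, ← Complex.ofReal_add,
      Complex.norm_real, ← sub_eq_add_neg]
    exact h1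

end

end Pool.Agent.Y707.PL
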